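import Mathlib

/-!
# MP_07c750_an, project HALF, part I (additive energy of sets which are porous on most scales): definitions

All probability spaces are uniform distributions on finite sets; conditioning on `Z` is passing to the smaller set `fib s Z w`.
-/

set_option autoImplicit false

namespace Pool.Agent.HALF

open Classical in
/-- the class of `w` in `s`: the elements of `s` with the same value of `Z` -/
noncomputable def fib {Ω A : Type} (s : Finset Ω) (Z : Ω → A) (w : Ω) : Finset Ω := s.filter fun w' => Z w' = Z w

/-- the entropy of `X` under the uniform distribution on `s` -/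
noncomputable def HU {Ω A : Type} (s : Finset Ω) (X : Ω → A) : ℝ :=
  (∑ w ∈ s, Real.log ((s.card : ℝ) / ((fib s X w).card : ℝ))) / s.card

/-- the conditional entropy of `X` given `Z` -/
noncomputable def HC {Ω A B : Type} (s : Finset Ω) (X : Ω → A) (Z : Ω → B) : ℝ :=
  HU s (fun w => (X w, Z w)) - HU s Z

/-- the first `j` binary digits of the `N` bit number `u` -/
def dg (N j : ℕ) (u : ℤ) : ℤ := u / 2 ^ (N - j)

/-- the additive quadruples `(a, b, c, d)`, `a + b = c + d`; their number is the additive energy -/
def quad (Y : Finset ℤ) : Finset (ℤ × ℤ × ℤ × ℤ) := (Y ×ˢ Y ×ˢ Y ×ˢ Y).filter fun w => w.1 + w.2.1 = w.2.2.1 + w.2.2.2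

/-- the sum of the coordinates -/
def sm {n : ℕ} (u : Fin n → ℤ) : ℤ := ∑ i, u i

end Pool.Agent.HALF
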